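import Pool.Agent.W602.RG.Stm3

/-! FNW: finitely many pointed maps to varieties given by sums of few powers of linear forms. -/

set_option autoImplicit false

open FF MvPolynomial Pool.Agent.W603.LV Pool.Agent.W603.PV Pool.Agent.W603.CX
open Pool.Agent.W602.RG
open Pool.Agent.W602.GT (lin val IsForm VarPts SubVar IsComponent GeneralType Cone tn val_smul)
open scoped LinearAlgebra.Projectivization

namespace Pool.Agent.W273.RG.FNW

variable {k L : Type} [Field k] [Field L] [Algebra k L] {n : ℕ} {ι : Type}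

theorem hv_ne {c : Place k L} {x : Fin (n + 1) → k} {f : Fin (n + 1) → L} (hf : ∃ j, f j ≠ 0)
    (h : HasValue c x f) {j0 : Fin (n + 1)} (hj0 : x j0 ≠ 0) : f j0 ≠ 0 := by
  intro h0
  obtain ⟨i, hi, hord⟩ := exists_pord c hf
  have hx : algebraMap k L (x j0) ≠ 0 := (map_ne_zero _).2 hj0
  rcases h j0 i with h1 | h1
  · rw [h0, mul_zero, sub_zero] at h1
    exact (mul_ne_zero hx hi) h1
  · rw [h0, mul_zero, sub_zero, c.ord_mul hx hi, c.ord_const hj0, zero_add, hord] at h1
    exact lt_irrefl _ h1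

theorem hv_scale {P : Place k L} {x : Fin (n + 1) → k} {f : Fin (n + 1) → L} (hf : ∃ j, f j ≠ 0)
    (h : HasValue P x f) {c : L} (hc : c ≠ 0) : HasValue P x (fun j => c * f j) := by
  intro i j
  have e : algebraMap k L (x i) * (c * f j) - algebraMap k L (x j) * (c * f i) =
      c * (algebraMap k L (x i) * f j - algebraMap k L (x j) * f i) := by ring
  rw [e, pord_scale P hf hc]
  by_cases h0 : algebraMap k L (x i) * f j - algebraMap k L (x j) * f i = 0
  · left; rw [h0, mul_zero]
  · right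
    rw [P.ord_mul hc h0]
    have := (h i j).resolve_left h0
    omega

theorem pord_zero {c : Place k L} {x : Fin (n + 1) → k} {f : Fin (n + 1) → L}
    (h : HasValue c x f) {j0 : Fin (n + 1)} (hj0 : x j0 ≠ 0) (hf0 : f j0 = 1) :
    pord c f = 0 := by
  have hne : f j0 ≠ 0 := by rw [hf0]; exact one_ne_zero
  have hle : pord c f ≤ 0 := by
    have := pord_le c hne
    rwa [hf0, c.ord_one] at this
  rcases hle.lt_or_eq with hlt | heq
  · exfalso
    obtain ⟨j, hj, hord⟩ := exists_pord c ⟨j0, hne⟩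
    have hx : algebraMap k L (x j0) ≠ 0 := (map_ne_zero _).2 hj0
    have h1 : c.ord (algebraMap k L (x j0) * f j) = pord c f := by
      rw [c.ord_mul hx hj, c.ord_const hj0, zero_add, hord]
    have h2 : algebraMap k L (x j0) * f j ≠ 0 := mul_ne_zero hx hj
    have h3 : algebraMap k L (x j0) * f j - algebraMap k L (x j) * f j0 ≠ 0 ∧
        c.ord (algebraMap k L (x j0) * f j - algebraMap k L (x j) * f j0) = pord c f := by
      rw [hf0, mul_one]
      by_cases hxj : x j = 0
      · rw [hxj, map_zero, sub_zero]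
        exact ⟨h2, h1⟩
      · have h4 : -algebraMap k L (x j) ≠ 0 := neg_ne_zero.2 ((map_ne_zero _).2 hxj)
        have h5 := c.ord_add_eq h2 h4 (by rw [h1, c.ord_neg, c.ord_const hxj]; exact hlt)
        rw [← sub_eq_add_neg] at h5
        exact ⟨h5.1, by rw [h5.2, h1]⟩
    rcases h j0 j with h6 | h6
    · exact h3.1 h6
    · rw [h3.2] at h6
      exact lt_irrefl _ h6
  · exact heq

/-- a linear form -/
noncomputable def lf (a : Fin (n + 1) → k) : MvPolynomial (Fin (n + 1)) k :=
  ∑ j, MvPolynomial.C (a j) * MvPolynomial.X j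

theorem lf_form (a : Fin (n + 1) → k) : (lf a).IsHomogeneous 1 := by
  refine MvPolynomial.IsHomogeneous.sum _ _ _ fun i _ => ?_
  have := (MvPolynomial.isHomogeneous_C (Fin (n + 1)) (a i)).mul (isHomogeneous_X k i)
  simpa using this

theorem val_lf {M : Type} [Field M] [Algebra k M] (a : Fin (n + 1) → k) (f : Fin (n + 1) → M) :
    val f (lf a) = lin a f := by
  unfold val lf lin
  simp

theorem war_form (s d : ι → ℕ) (l : ∀ i, Fin (s i) → Fin (n + 1) → k) (i : ι) :
    IsForm (war s d l i) := by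
  refine ⟨d i, MvPolynomial.IsHomogeneous.sum _ _ _ fun t _ => ?_⟩
  have := (lf_form (l i t)).pow (d i)
  rwa [one_mul] at this

theorem val_war {M : Type} [Field M] [Algebra k M] (s d : ι → ℕ)
    (l : ∀ i, Fin (s i) → Fin (n + 1) → k) (i : ι) (f : Fin (n + 1) → M) :
    val f (war s d l i) = ∑ t, lin (l i t) f ^ d i := by
  have : war s d l i = ∑ t, lf (l i t) ^ d i := rfl
  rw [this]
  unfold val
  rw [map_sum]
  refine Finset.sum_congr rfl fun t _ => ?_
  rw [map_pow]
  congr 1
  exact val_lf (l i t) f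

theorem main (h1 : S_RGW) (h2 : S_HTW) : S_FNW := by
  classical
  intro k L _ _ _ _ _ _ n ι _ s d l hd hs K _ _ y hy c x hx hlx hnc
  by_contra hfin
  have hinf : (PointedMaps y c x).Infinite := hfin
  obtain ⟨j0, hj0⟩ := Function.ne_iff.1 hx.1
  have hj0 : x j0 ≠ 0 := hj0
  obtain ⟨B, hB⟩ := h2 k L n ι s d l hd hs c x j0 hj0 hnc
  set M : Set (Fin (n + 1) → L) := {f | f j0 = 1 ∧ (∀ H : MvPolynomial (Fin (n + 1)) k, IsForm H →
    val y H = 0 → val f H = 0) ∧ HasValue c x f} with hM
  have hMinf : M.Infinite := by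
    intro hMfin
    obtain ⟨φ0, -⟩ := hinf.nonempty
    let g : (Fin (n + 1) → L) → ℙ L (Fin (n + 1) → L) := fun f =>
      if h : f ≠ 0 then Projectivization.mk L f h else φ0
    refine hinf ((hMfin.image g).subset ?_)
    rintro φ ⟨f, hf, hmap, hval, rfl⟩
    have hfne : ∃ j, f j ≠ 0 := Function.ne_iff.1 hf
    have hfj0 := hv_ne hfne hval hj0
    have hc0 : (f j0)⁻¹ ≠ 0 := inv_ne_zero hfj0
    have hf' : (fun j => (f j0)⁻¹ * f j) ≠ 0 := by
      intro h0
      have := congrFun h0 j0
      simp only [Pi.zero_apply] at this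
      exact (mul_ne_zero hc0 hfj0) this
    refine ⟨fun j => (f j0)⁻¹ * f j, ⟨inv_mul_cancel₀ hfj0, ?_,
      hv_scale hfne hval hc0⟩, ?_⟩
    · intro H hH hyH
      have h3 := hmap H hH hyH
      obtain ⟨e, he⟩ := hH
      rw [val_smul he, h3, mul_zero]
    · change (if h : (fun j => (f j0)⁻¹ * f j) ≠ 0 then
        Projectivization.mk L (fun j => (f j0)⁻¹ * f j) h else φ0) = _
      rw [dif_pos hf', Projectivization.mk_eq_mk_iff']
      exact ⟨(f j0)⁻¹, by funext j; rfl⟩
  apply hnc
  have key : ∀ f ∈ M, f j0 = 1 ∧ (∀ i, ∑ t, lin (l i t) f ^ d i = 0) ∧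
      (∀ i t, lin (l i t) x = 0 → lin (l i t) f = 0) ∧
      (∀ j, f j = algebraMap k L (x j / x j0) ∨
        0 < c.ord (f j - algebraMap k L (x j / x j0))) := by
    rintro f ⟨hf0, hmap, hval⟩
    have hp := pord_zero hval hj0 hf0
    have hxj0 : algebraMap k L (x j0) ≠ 0 := (map_ne_zero _).2 hj0
    refine ⟨hf0, fun i => ?_, fun i t hlt => ?_, fun j => ?_⟩
    · rw [← val_war]
      exact hmap _ (war_form s d l i) (hy i)
    · rw [← val_lf]
      refine hmap _ ⟨1, lf_form _⟩ ?_
      rw [val_lf]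
      exact hlx i t hlt
    · have e : algebraMap k L (x j0) * f j - algebraMap k L (x j) * f j0 =
          algebraMap k L (x j0) * (f j - algebraMap k L (x j / x j0)) := by
        rw [hf0, map_div₀]
        field_simp
      rcases hval j0 j with h3 | h3
      · left
        rw [e] at h3
        exact sub_eq_zero.1 ((mul_eq_zero.1 h3).resolve_left hxj0)
      · by_cases h4 : f j - algebraMap k L (x j / x j0) = 0
        · left; exact sub_eq_zero.1 h4
        · right
          rw [e, c.ord_mul hxj0 h4, c.ord_const hj0, zero_add, hp] at h3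
          exact h3
  refine h1 k L n ι s d l hd hs c x j0 hj0 B M hMinf fun f hf => ?_
  obtain ⟨k1, k2, k3, k4⟩ := key f hf
  exact ⟨k1, k2, k3, k4, hB f k1 k2 k3 k4⟩

end Pool.Agent.W273.RG.FNW
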